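import Pool.Agent.Q66.FD.Stm

set_option autoImplicit false

open MeasureTheory Filter Topology Set

noncomputable section

namespace Pool.Agent.Q86.FD

open Q66.FD

theorem J_eq (s : ℝ) (z : ℂ) : J s z = (‖z‖ ^ 2) ^ (-(1 + s)) := by
  rw [J, ← Real.rpow_natCast_mul (norm_nonneg z)]
  congr 1
  push_cast
  ring

theorem J_nonneg (s : ℝ) (z : ℂ) : 0 ≤ J s z := Real.rpow_nonneg (norm_nonneg z) _

theorem measurable_J (s : ℝ) : Measurable (J s) := by
  unfold J
  exact measurable_norm.pow_const _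

theorem Jt_pos (s t : ℝ) (ht : 0 < t) (z : ℂ) : 0 < Jt s t z := by
  unfold Jt
  positivity

theorem continuous_Jt (s t : ℝ) (ht : 0 < t) : Continuous (Jt s t) := by
  unfold Jt
  refine Continuous.rpow_const (by fun_prop) fun z => Or.inl ?_
  positivity

theorem Jt_int (s : ℝ) (hs : 0 < s) (t : ℝ) (ht : 0 < t) : Integrable (Jt s t) := by
  have h1 : Integrable (fun z : ℂ => ((1 : ℝ) + ‖z‖ ^ 2) ^ (-(2 + 2 * s) / 2)) :=
    integrable_rpow_neg_one_add_norm_sq (by
      rw [Complex.finrank_real_complex]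
      push_cast
      linarith)
  refine (h1.const_mul ((min 1 (t ^ 2)) ^ (-(1 + s)))).mono'
    (continuous_Jt s t ht).aestronglyMeasurable (Eventually.of_forall fun z => ?_)
  rw [Real.norm_eq_abs, abs_of_pos (Jt_pos s t ht z)]
  have e1 : -(2 + 2 * s) / 2 = -(1 + s) := by ring
  rw [e1]
  have hm : 0 < min 1 (t ^ 2) := lt_min one_pos (by positivity)
  rw [← Real.mul_rpow hm.le (by positivity)]
  unfold Jt
  refine Real.rpow_le_rpow_of_nonpos (by positivity) ?_ (by linarith)
  have h2 : min 1 (t ^ 2) ≤ t ^ 2 := min_le_right _ _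
  have h3 : min 1 (t ^ 2) ≤ 1 := min_le_left _ _
  have h4 : 0 ≤ ‖z‖ ^ 2 := by positivity
  nlinarith

theorem minJ_int (s : ℝ) (hs : 0 < s) (hs1 : s < 1) :
    Integrable (fun z : ℂ => min 1 (‖z‖ ^ 2) * J s z) := by
  have h := (integrable_fun_norm_addHaar (volume : Measure ℂ)
    (f := fun r : ℝ => min 1 (r ^ 2) * r ^ (-(2 + 2 * s)))).2 ?_
  · exact h
  rw [Complex.finrank_real_complex]
  have hun : Ioi (0 : ℝ) = Ioc 0 1 ∪ Ioi 1 := (Ioc_union_Ioi_eq_Ioi zero_le_one).symm
  rw [hun, integrableOn_union]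
  constructor
  · have h1 : IntegrableOn (fun y : ℝ => y ^ (1 - 2 * s)) (Ioc 0 1) := by
      have := intervalIntegral.intervalIntegrable_rpow' (a := 0) (b := 1) (r := 1 - 2 * s) (by linarith)
      exact (intervalIntegrable_iff_integrableOn_Ioc_of_le zero_le_one).1 this
    refine h1.congr_fun (fun y hy => ?_) measurableSet_Ioc
    have hy0 : 0 < y := hy.1
    have hy2 : y ^ 2 ≤ 1 := by nlinarith [hy.1, hy.2]
    simp only [smul_eq_mul, min_eq_right hy2]
    rw [← Real.rpow_natCast y 2, ← Real.rpow_add hy0, ← Real.rpow_natCast y (2 - 1), ← Real.rpow_add hy0]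
    congr 1
    push_cast
    ring
  · have h1 : IntegrableOn (fun y : ℝ => y ^ (-1 - 2 * s)) (Ioi 1) :=
      integrableOn_Ioi_rpow_of_lt (by linarith) one_pos
    refine h1.congr_fun (fun y hy => ?_) measurableSet_Ioi
    have hy1 : (1 : ℝ) < y := hy
    have hy0 : 0 < y := by linarith
    have hy2 : 1 ≤ y ^ 2 := by nlinarith
    simp only [smul_eq_mul, min_eq_left hy2, one_mul]
    rw [← Real.rpow_natCast y (2 - 1), ← Real.rpow_add hy0]
    congr 1
    push_cast
    ring

theorem Jt_le (s : ℝ) (hs : 0 < s) (t : ℝ) (z : ℂ) (hz : z ≠ 0) : Jt s t z ≤ J s z := by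
  rw [J_eq, Jt]
  have h0 : 0 < ‖z‖ := norm_pos_iff.2 hz
  exact Real.rpow_le_rpow_of_nonpos (by positivity) (by nlinarith [sq_nonneg t]) (by linarith)

theorem Jt_tendsto (s : ℝ) (z : ℂ) (hz : z ≠ 0) :
    Tendsto (fun t => Jt s t z) (𝓝[>] 0) (𝓝 (J s z)) := by
  have h0 : 0 < ‖z‖ := norm_pos_iff.2 hz
  have h1 : ContinuousAt (fun t : ℝ => Jt s t z) 0 := by
    unfold Jt
    refine ContinuousAt.rpow_const (by fun_prop) (Or.inl ?_)
    positivity
  have h2 : Jt s 0 z = J s z := by
    rw [J_eq, Jt]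
    congr 1
    ring
  rw [← h2]
  exact h1.tendsto.mono_left nhdsWithin_le_nhds

theorem t_J : S_J := by
  intro s hs hs1
  refine ⟨fun t ht => Jt_int s hs t ht, minJ_int s hs hs1,
    fun t ht z => ⟨Jt_pos s t ht z, fun hz => Jt_le s hs t z hz⟩, fun z hz => Jt_tendsto s z hz,
    ?_, ?_⟩
  · unfold c1
    rw [integral_pos_iff_support_of_nonneg (fun z => (Jt_pos s 1 one_pos z).le)
      (Jt_int s hs 1 one_pos)]
    have : Function.support (Jt s 1) = univ := by
      ext z
      simp [(Jt_pos s 1 one_pos z).ne']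
    rw [this]
    exact isOpen_univ.measure_pos _ univ_nonempty
  · unfold aC
    apply inv_pos.2
    have h1 : ∀ ξ : ℂ, (1 - Real.cos ξ.re) / ‖ξ‖ ^ (2 + 2 * s) = (1 - Real.cos ξ.re) * J s ξ := by
      intro ξ
      rw [J, Real.rpow_neg (norm_nonneg ξ), div_eq_mul_inv]
    have h2 : ∀ ξ : ℂ, 0 ≤ (1 - Real.cos ξ.re) * J s ξ := fun ξ =>
      mul_nonneg (by linarith [Real.cos_le_one ξ.re]) (J_nonneg s ξ)
    simp only [h1]
    have hint : Integrable (fun ξ : ℂ => (1 - Real.cos ξ.re) * J s ξ) := by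
      refine ((minJ_int s hs hs1).const_mul 2).mono' ?_ (Eventually.of_forall fun ξ => ?_)
      · refine Measurable.aestronglyMeasurable ?_
        refine Measurable.mul ?_ (measurable_J s)
        exact measurable_const.sub (Real.measurable_cos.comp Complex.measurable_re)
      · rw [Real.norm_eq_abs, abs_of_nonneg (h2 ξ), ← mul_assoc]
        refine mul_le_mul_of_nonneg_right ?_ (J_nonneg s ξ)
        have h3 := Real.one_sub_sq_div_two_le_cos (x := ξ.re)
        have h4 := Real.neg_one_le_cos ξ.re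
        have h5 : ξ.re ^ 2 ≤ ‖ξ‖ ^ 2 := by
          rw [← sq_abs ξ.re]
          exact pow_le_pow_left₀ (abs_nonneg _) (Complex.abs_re_le_norm ξ) 2
        rcases le_total 1 (‖ξ‖ ^ 2) with h6 | h6
        · rw [min_eq_left h6]
          linarith
        · rw [min_eq_right h6]
          nlinarith [sq_nonneg ‖ξ‖]
    rw [integral_pos_iff_support_of_nonneg h2 hint]
    have hopen : IsOpen {ξ : ℂ | 0 < ξ.re ∧ ξ.re < 1} :=
      (isOpen_lt continuous_const Complex.continuous_re).inter
        (isOpen_lt Complex.continuous_re continuous_const)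
    refine lt_of_lt_of_le (hopen.measure_pos _ ⟨⟨1 / 2, 0⟩, by norm_num, by norm_num⟩)
      (measure_mono fun ξ hξ => ?_)
    rw [Function.mem_support]
    have h3 : Real.cos ξ.re < 1 := by
      have := Real.cos_lt_cos_of_nonneg_of_le_pi (x := 0) (y := ξ.re) le_rfl
        (by linarith [hξ.2, Real.pi_gt_three]) hξ.1
      rwa [Real.cos_zero] at this
    have h4 : ξ ≠ 0 := by
      rintro rfl
      exact lt_irrefl _ hξ.1
    have h5 : 0 < J s ξ := Real.rpow_pos_of_pos (norm_pos_iff.2 h4) _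
    have : 0 < 1 - Real.cos ξ.re := by linarith
    positivity

end Pool.Agent.Q86.FD
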