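import Pool.Agent.Q86.FD.J

set_option autoImplicit false

open MeasureTheory Filter Topology Set

noncomputable section

namespace Pool.Agent.Q86.FD

open Q66.FD

theorem norm_rpow_two (s : ℝ) (x : ℂ) : ‖x‖ ^ (2 * s - 2) = (‖x‖ ^ 2) ^ (s - 1) := by
  rw [← Real.rpow_natCast_mul (norm_nonneg x)]
  congr 1
  push_cast
  ring

theorem kt_pos (hJ : S_J) (s : ℝ) (hs : 0 < s) (hs1 : s < 1) (t : ℝ) (ht : 0 < t) (x : ℂ)
    (hx : x ≠ 0) : 0 < kt s t x := by
  obtain ⟨-, -, -, -, hc, -⟩ := hJ s hs hs1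
  have h0 : 0 < ‖x‖ := norm_pos_iff.2 hx
  have h1 : (t ^ 2 + ‖x‖ ^ 2) ^ (s - 1) < ‖x‖ ^ (2 * s - 2) := by
    rw [norm_rpow_two]
    exact Real.rpow_lt_rpow_of_neg (by positivity) (by nlinarith [sq_pos_of_pos ht]) (by linarith)
  unfold kt
  have h2 : 0 < t ^ (-(2 * s)) := Real.rpow_pos_of_pos ht _
  have h3 : 0 < ‖x‖ ^ (2 * s - 2) - (t ^ 2 + ‖x‖ ^ 2) ^ (s - 1) := by linarith
  positivity

theorem kt_scale (s : ℝ) (t : ℝ) (ht : 0 < t) (x : ℂ) :
    kt s t ((t : ℂ) * x) = (t ^ 2)⁻¹ * kt s 1 x := by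
  have h1 : ‖(t : ℂ) * x‖ = t * ‖x‖ := by
    rw [norm_mul, Complex.norm_real, Real.norm_eq_abs, abs_of_pos ht]
  unfold kt
  rw [h1, Real.mul_rpow ht.le (norm_nonneg x)]
  have h2 : (t ^ 2 + (t * ‖x‖) ^ 2) ^ (s - 1) = t ^ (2 * s - 2) * (1 ^ 2 + ‖x‖ ^ 2) ^ (s - 1) := by
    have h3 : t ^ 2 + (t * ‖x‖) ^ 2 = t ^ 2 * (1 ^ 2 + ‖x‖ ^ 2) := by ring
    rw [h3, Real.mul_rpow (by positivity) (by positivity), ← Real.rpow_natCast_mul ht.le]
    congr 2
    push_cast
    ring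
  have h4 : t ^ (-(2 * s)) * t ^ (2 * s - 2) = (t ^ 2)⁻¹ := by
    rw [← Real.rpow_add ht, ← Real.rpow_natCast t 2, ← Real.rpow_neg ht.le]
    congr 1
    push_cast
    ring
  rw [h2, Real.one_rpow, mul_one, ← mul_sub, ← h4]
  ring

theorem kt_one_int (s : ℝ) (hs : 0 < s) (hs1 : s < 1) : Integrable (kt s 1) := by
  have hc : 0 ≤ c1 s := integral_nonneg fun z => (Jt_pos s 1 one_pos z).le
  have h := (integrable_fun_norm_addHaar (volume : Measure ℂ)
    (f := fun r : ℝ => c1 s * (1 : ℝ) ^ (-(2 * s)) * (r ^ (2 * s - 2) - (1 ^ 2 + r ^ 2) ^ (s - 1)))).2 ?_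
  · exact h
  rw [Complex.finrank_real_complex]
  have hun : Ioi (0 : ℝ) = Ioc 0 1 ∪ Ioi 1 := (Ioc_union_Ioi_eq_Ioi zero_le_one).symm
  have hmeas : Measurable (fun y : ℝ => y ^ (2 - 1) • (c1 s * (1 : ℝ) ^ (-(2 * s)) *
      (y ^ (2 * s - 2) - (1 ^ 2 + y ^ 2) ^ (s - 1)))) := by
    refine (measurable_id.pow_const _).smul (Measurable.const_mul ?_ _)
    refine (measurable_id.pow_const _).sub ?_
    exact (measurable_const.add (measurable_id.pow_const 2)).pow_const _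
  have hnn : ∀ y : ℝ, 0 < y → 0 ≤ y ^ (2 * s - 2) - (1 ^ 2 + y ^ 2) ^ (s - 1) := by
    intro y hy
    have e1 : y ^ (2 * s - 2) = (y ^ 2) ^ (s - 1) := by
      rw [← Real.rpow_natCast_mul hy.le]
      congr 1
      push_cast
      ring
    rw [e1, sub_nonneg]
    exact Real.rpow_le_rpow_of_nonpos (by positivity) (by nlinarith) (by linarith)
  rw [hun, integrableOn_union]
  constructor
  · have h1 : IntegrableOn (fun y : ℝ => y ^ (2 * s - 1)) (Ioc 0 1) := by
      have := intervalIntegral.intervalIntegrable_rpow' (a := 0) (b := 1) (r := 2 * s - 1) (by linarith)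
      exact (intervalIntegrable_iff_integrableOn_Ioc_of_le zero_le_one).1 this
    refine (h1.const_mul (c1 s)).mono' hmeas.aestronglyMeasurable ?_
    filter_upwards [ae_restrict_mem measurableSet_Ioc] with y hy
    have hy0 : 0 < y := hy.1
    have e1 : y ^ (2 * s - 1) = y * y ^ (2 * s - 2) := by
      nth_rewrite 2 [← Real.rpow_one y]
      rw [← Real.rpow_add hy0]
      congr 1
      ring
    rw [Real.one_rpow, mul_one, smul_eq_mul, Real.norm_eq_abs, abs_of_nonneg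
      (mul_nonneg (by positivity) (mul_nonneg hc (hnn y hy0))), e1]
    have e2 : y ^ (2 - 1) = y := by norm_num
    rw [e2]
    have e3 : 0 ≤ (1 ^ 2 + y ^ 2) ^ (s - 1) := by positivity
    have e4 : 0 ≤ c1 s * y := mul_nonneg hc hy0.le
    nlinarith [mul_nonneg e4 e3]
  · have h1 : IntegrableOn (fun y : ℝ => y ^ (2 * s - 3)) (Ioi 1) :=
      integrableOn_Ioi_rpow_of_lt (by linarith) one_pos
    refine (h1.const_mul (c1 s)).mono' hmeas.aestronglyMeasurable ?_
    filter_upwards [ae_restrict_mem measurableSet_Ioi] with y hy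
    have hy1 : (1 : ℝ) < y := hy
    have hy0 : 0 < y := by linarith
    have e1 : y ^ (2 * s - 3) = y * (y ^ (2 * s - 2) * (y ^ 2)⁻¹) := by
      have h2 : (y ^ 2)⁻¹ = y ^ (-2 : ℝ) := by
        rw [Real.rpow_neg hy0.le]
        norm_num
      rw [h2, ← Real.rpow_add hy0]
      nth_rewrite 2 [← Real.rpow_one y]
      rw [← Real.rpow_add hy0]
      congr 1
      ring
    have e5 : (1 ^ 2 + y ^ 2) ^ (s - 1) = y ^ (2 * s - 2) * (1 + (y ^ 2)⁻¹) ^ (s - 1) := by
      have h2 : (1 : ℝ) ^ 2 + y ^ 2 = y ^ 2 * (1 + (y ^ 2)⁻¹) := by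
        field_simp
        ring
      rw [h2, Real.mul_rpow (by positivity) (by positivity), ← Real.rpow_natCast_mul hy0.le]
      congr 2
      push_cast
      ring
    have e6 : 1 - (1 + (y ^ 2)⁻¹) ^ (s - 1) ≤ (y ^ 2)⁻¹ := by
      set a := (y ^ 2)⁻¹ with ha
      have ha0 : 0 < a := by positivity
      have h2 : (1 + a) ^ (1 - s) ≤ 1 + (1 - s) * a := by
        have := rpow_one_add_le_one_add_mul_self (s := a) (p := 1 - s) (by linarith) (by linarith)
          (by linarith)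
        linarith
      have h3 : (1 + a) ^ (s - 1) = ((1 + a) ^ (1 - s))⁻¹ := by
        rw [← Real.rpow_neg (by linarith)]
        congr 1
        ring
      have h4 : 0 < (1 + a) ^ (1 - s) := by positivity
      have h5 : (1 + (1 - s) * a)⁻¹ ≤ ((1 + a) ^ (1 - s))⁻¹ := inv_anti₀ h4 h2
      have h6 : 1 - (1 - s) * a ≤ (1 + (1 - s) * a)⁻¹ := by
        have h7 : 0 < 1 + (1 - s) * a := by
          have : 0 < (1 - s) * a := mul_pos (by linarith) ha0
          linarith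
        rw [← one_div, le_div_iff₀ h7]
        nlinarith [sq_nonneg ((1 - s) * a)]
      rw [h3]
      nlinarith
    rw [Real.one_rpow, mul_one, smul_eq_mul, Real.norm_eq_abs, abs_of_nonneg
      (mul_nonneg (by positivity) (mul_nonneg hc (hnn y hy0))), e1, e5]
    have e2 : y ^ (2 - 1) = y := by norm_num
    rw [e2]
    have e7 : 0 < y ^ (2 * s - 2) := Real.rpow_pos_of_pos hy0 _
    have e8 : 0 ≤ y * c1 s * y ^ (2 * s - 2) := by positivity
    have e9 := mul_le_mul_of_nonneg_left e6 e8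
    linarith

theorem t_K2 : S_J → S_K2 := by
  intro hJ s hs hs1
  have h1 := kt_one_int s hs hs1
  refine ⟨fun t ht x hx => kt_pos hJ s hs hs1 t ht x hx, fun t ht x => kt_scale s t ht x,
    fun t ht => ?_, ?_⟩
  · rw [← integrable_comp_smul_iff (volume : Measure ℂ) (kt s t) ht.ne']
    refine (h1.const_mul ((t ^ 2)⁻¹)).congr (Eventually.of_forall fun x => ?_)
    show (t ^ 2)⁻¹ * kt s 1 x = kt s t (t • x)
    rw [Complex.real_smul, kt_scale s t ht x]
  · unfold C0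
    have hae : ∀ᵐ x : ℂ, x ≠ 0 := by
      rw [ae_iff]
      simp
    rw [integral_pos_iff_support_of_nonneg_ae
      (hae.mono fun x hx => (kt_pos hJ s hs hs1 1 one_pos x hx).le) h1]
    have hopen : IsOpen {x : ℂ | x ≠ 0} := isOpen_ne
    refine lt_of_lt_of_le (hopen.measure_pos _ ⟨1, one_ne_zero⟩) (measure_mono fun x hx => ?_)
    exact (kt_pos hJ s hs hs1 1 one_pos x hx).ne'

end Pool.Agent.Q86.FD
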