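import Pool.Agent.Q86.FD.J

set_option autoImplicit false

open MeasureTheory Filter Topology Set

noncomputable section

namespace Pool.Agent.Q86.FD

open Q66.FD

theorem measurable_KK (s : ℝ) : Measurable (KK s) := by
  unfold KK
  exact measurable_norm.pow_const _

theorem KK_nonneg (s : ℝ) (z : ℂ) : 0 ≤ KK s z := Real.rpow_nonneg (norm_nonneg z) _

theorem KK1_int (s : ℝ) (hs : 0 < s) : Integrable ((Metric.ball (0 : ℂ) 2).indicator (KK s)) := by
  rw [integrable_indicator_iff measurableSet_ball]
  refine (integrableOn_fun_norm_addHaar (volume : Measure ℂ)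
    (f := fun r : ℝ => r ^ (2 * s - 2)) (r := 2)).2 ?_
  rw [Complex.finrank_real_complex]
  have h1 : IntegrableOn (fun y : ℝ => y ^ (2 * s - 1)) (Ioo 0 2) :=
    (intervalIntegral.integrableOn_Ioo_rpow_iff (by norm_num)).2 (by linarith)
  refine h1.congr_fun (fun y hy => ?_) measurableSet_Ioo
  have hy0 : 0 < y := hy.1
  have e2 : y ^ (2 - 1) = y := by norm_num
  show y ^ (2 * s - 1) = y ^ (2 - 1) • y ^ (2 * s - 2)
  rw [e2, smul_eq_mul]
  nth_rewrite 2 [← Real.rpow_one y]
  rw [← Real.rpow_add hy0]
  congr 1
  ring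

theorem KK_le_one (s : ℝ) (hs1 : s < 1) (z : ℂ) (hz : z ∉ Metric.ball (0 : ℂ) 2) : KK s z ≤ 1 := by
  rw [mem_ball_zero_iff, not_lt] at hz
  exact Real.rpow_le_one_of_one_le_of_nonpos (by linarith) (by linarith)

theorem KK_le (s : ℝ) (hs1 : s < 1) (z : ℂ) :
    KK s z ≤ (Metric.ball (0 : ℂ) 2).indicator (KK s) z + 1 := by
  by_cases hz : z ∈ Metric.ball (0 : ℂ) 2
  · rw [indicator_of_mem hz]
    linarith
  · rw [indicator_of_notMem hz]
    linarith [KK_le_one s hs1 z hz]

theorem Bd_int (ρ : ℂ → ℝ) (h : Bd ρ) : Integrable ρ := by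
  obtain ⟨M, hM⟩ := h.bdd
  obtain ⟨R, hR⟩ := h.supp
  have h1 : IntegrableOn ρ (Metric.closedBall (0 : ℂ) R) :=
    Measure.integrableOn_of_bounded (isCompact_closedBall _ _).measure_lt_top.ne
      h.meas.aestronglyMeasurable (Eventually.of_forall hM)
  rw [← integrable_indicator_iff measurableSet_closedBall] at h1
  refine h1.congr (Eventually.of_forall fun x => ?_)
  by_cases hx : x ∈ Metric.closedBall (0 : ℂ) R
  · rw [indicator_of_mem hx]
  · rw [indicator_of_notMem hx]
    rw [mem_closedBall_zero_iff, not_le] at hx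
    exact (hR x hx).symm

theorem t_K3 : S_K3 := by
  intro s hs hs1 ρ hρ
  obtain ⟨M, hM⟩ := hρ.bdd
  have hM0 : 0 ≤ M := (abs_nonneg _).trans (hM 0)
  have hρi := Bd_int ρ hρ
  set K1 : ℂ → ℝ := (Metric.ball (0 : ℂ) 2).indicator (KK s) with hK1
  have hK1i : Integrable K1 := KK1_int s hs
  have hK10 : ∀ z, 0 ≤ K1 z := fun z => indicator_nonneg (fun z _ => KK_nonneg s z) z
  have hbi : ∀ x, Integrable (fun y => M * K1 (x - y) + |ρ y|) := fun x =>
    ((hK1i.comp_sub_left x).const_mul M).add hρi.abs
  have hb : ∀ x y, |KK s (x - y) * ρ y| ≤ M * K1 (x - y) + |ρ y| := by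
    intro x y
    rw [abs_mul, abs_of_nonneg (KK_nonneg s _)]
    have h1 := KK_le s hs1 (x - y)
    have h2 := abs_nonneg (ρ y)
    have h3 := mul_le_mul_of_nonneg_right h1 h2
    have h4 := mul_le_mul_of_nonneg_left (hM y) (hK10 (x - y))
    calc KK s (x - y) * |ρ y| ≤ (K1 (x - y) + 1) * |ρ y| := h3
      _ = K1 (x - y) * |ρ y| + |ρ y| := by ring
      _ ≤ M * K1 (x - y) + |ρ y| := by linarith
  have hmeas : ∀ x, Measurable (fun y => KK s (x - y) * ρ y) := fun x =>
    ((measurable_KK s).comp (measurable_const.sub measurable_id)).mul hρ.meas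
  have hint : ∀ x, Integrable (fun y => KK s (x - y) * ρ y) := fun x =>
    (hbi x).mono' (hmeas x).aestronglyMeasurable (Eventually.of_forall fun y => hb x y)
  refine ⟨hint, ?_, M * (∫ z, K1 z) + ∫ y, |ρ y|, fun x => ?_⟩
  · -- truncated kernels
    let F : ℕ → ℂ → ℝ := fun n x => ∫ y, min (KK s (x - y)) n * ρ y
    have hFm : ∀ (n : ℕ) (x : ℂ), Measurable (fun y => min (KK s (x - y)) n * ρ y) := fun n x =>
      (((measurable_KK s).comp (measurable_const.sub measurable_id)).min measurable_const).mul hρ.meas
    have hFb : ∀ (n : ℕ) (x y : ℂ), ‖min (KK s (x - y)) n * ρ y‖ ≤ n * |ρ y| := by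
      intro n x y
      rw [norm_mul, Real.norm_eq_abs, Real.norm_eq_abs,
        abs_of_nonneg (le_min (KK_nonneg s _) (Nat.cast_nonneg n))]
      exact mul_le_mul_of_nonneg_right (min_le_right _ _) (abs_nonneg _)
    have hFc : ∀ n, Continuous (F n) := by
      intro n
      rw [continuous_iff_continuousAt]
      intro x₀
      refine continuousAt_of_dominated (bound := fun y => (n : ℝ) * |ρ y|)
        (Eventually.of_forall fun x => (hFm n x).aestronglyMeasurable)
        (Eventually.of_forall fun x => Eventually.of_forall fun y => hFb n x y)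
        (hρi.abs.const_mul _) ?_
      have hae : ∀ᵐ y : ℂ, y ≠ x₀ := by
        rw [ae_iff]
        simp
      filter_upwards [hae] with y hy
      have h1 : ContinuousAt (fun x : ℂ => KK s (x - y)) x₀ := by
        unfold KK
        refine ContinuousAt.rpow_const (by fun_prop) (Or.inl ?_)
        exact norm_ne_zero_iff.2 (sub_ne_zero.2 (Ne.symm hy))
      exact (h1.min continuousAt_const).mul continuousAt_const
    have hFi : ∀ (n : ℕ) (x : ℂ), Integrable (fun y => min (KK s (x - y)) n * ρ y) := fun n x =>
      (hρi.abs.const_mul (n : ℝ)).mono' (hFm n x).aestronglyMeasurable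
        (Eventually.of_forall fun y => hFb n x y)
    let g : ℕ → ℂ → ℝ := fun n z => KK s z - min (KK s z) n
    have hgm : ∀ n, Measurable (g n) := fun n =>
      (measurable_KK s).sub ((measurable_KK s).min measurable_const)
    have hg0 : ∀ n z, 0 ≤ g n z := fun n z => sub_nonneg.2 (min_le_left _ _)
    have hgK : ∀ n : ℕ, 1 ≤ n → ∀ z, g n z ≤ K1 z := by
      intro n hn z
      by_cases hz : z ∈ Metric.ball (0 : ℂ) 2
      · rw [hK1, indicator_of_mem hz]
        have : 0 ≤ min (KK s z) n := le_min (KK_nonneg s _) (Nat.cast_nonneg n)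
        show KK s z - min (KK s z) n ≤ KK s z
        linarith
      · rw [hK1, indicator_of_notMem hz]
        have h1 := KK_le_one s hs1 z hz
        have h2 : (1 : ℝ) ≤ n := by exact_mod_cast hn
        show KK s z - min (KK s z) n ≤ 0
        rw [min_eq_left (h1.trans h2), sub_self]
    have hgi : ∀ n : ℕ, 1 ≤ n → Integrable (g n) := fun n hn =>
      hK1i.mono' (hgm n).aestronglyMeasurable (Eventually.of_forall fun z => by
        rw [Real.norm_eq_abs, abs_of_nonneg (hg0 n z)]
        exact hgK n hn z)
    have hglim : Tendsto (fun n => ∫ z, g n z) atTop (𝓝 0) := by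
      have h1 : Tendsto (fun n => ∫ z, g n z) atTop (𝓝 (∫ _z : ℂ, (0 : ℝ))) := by
        refine tendsto_integral_filter_of_dominated_convergence K1
          (Eventually.of_forall fun n => (hgm n).aestronglyMeasurable) ?_ hK1i
          (Eventually.of_forall fun z => ?_)
        · filter_upwards [eventually_ge_atTop 1] with n hn
          exact Eventually.of_forall fun z => by
            rw [Real.norm_eq_abs, abs_of_nonneg (hg0 n z)]
            exact hgK n hn z
        · refine tendsto_const_nhds.congr' ?_
          obtain ⟨N, hN⟩ := exists_nat_ge (KK s z)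
          filter_upwards [eventually_ge_atTop N] with n hn
          have h2 : KK s z ≤ n := hN.trans (by exact_mod_cast hn)
          show 0 = KK s z - min (KK s z) n
          rw [min_eq_left h2, sub_self]
      simpa using h1
    have hdiff : ∀ n : ℕ, 1 ≤ n → ∀ x, |pot s ρ x - F n x| ≤ M * ∫ z, g n z := by
      intro n hn x
      have h1 : pot s ρ x - F n x = ∫ y, g n (x - y) * ρ y := by
        rw [pot, ← integral_sub (hint x) (hFi n x)]
        refine integral_congr_ae (Eventually.of_forall fun y => ?_)
        show KK s (x - y) * ρ y - min (KK s (x - y)) n * ρ y = (KK s (x - y) - min (KK s (x - y)) n) * ρ y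
        ring
      rw [h1, ← Real.norm_eq_abs]
      refine (norm_integral_le_of_norm_le (((hgi n hn).comp_sub_left x).const_mul M)
        (Eventually.of_forall fun y => ?_)).trans (le_of_eq ?_)
      · rw [norm_mul, Real.norm_eq_abs, Real.norm_eq_abs, abs_of_nonneg (hg0 n _), mul_comm]
        exact mul_le_mul_of_nonneg_right (hM y) (hg0 n _)
      · rw [integral_const_mul, integral_sub_left_eq_self (g n) volume x]
    have hunif : TendstoUniformly F (pot s ρ) atTop := by
      rw [Metric.tendstoUniformly_iff]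
      intro ε hε
      have h1 : Tendsto (fun n => M * ∫ z, g n z) atTop (𝓝 0) := by
        simpa using hglim.const_mul M
      filter_upwards [(tendsto_order.1 h1).2 ε hε, eventually_ge_atTop 1] with n hn hn1 x
      rw [Real.dist_eq]
      exact (hdiff n hn1 x).trans_lt hn
    exact hunif.continuous (Frequently.of_forall hFc)
  · rw [pot, ← Real.norm_eq_abs]
    refine (norm_integral_le_of_norm_le (hbi x) (Eventually.of_forall fun y => hb x y)).trans
      (le_of_eq ?_)
    rw [integral_add ((hK1i.comp_sub_left x).const_mul M) hρi.abs, integral_const_mul,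
      integral_sub_left_eq_self K1 volume x]

end Pool.Agent.Q86.FD
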