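import Pool.Agent.Q86.FD.PROD

set_option autoImplicit false

open MeasureTheory Filter Topology Set

noncomputable section

namespace Pool.Agent.Q86.FD

open Q66.FD

theorem t_NEG : S_J → S_PROD → S_NEG := by
  intro _ _ s hs hs1 w hw hw0 hne x hx
  obtain ⟨x', hx'⟩ := hne
  have hint := SDJ_int_z s hs hs1 w hw x
  have hSD : ∀ z, SD w x z * J s z = -((w (x + z) + w (x - z)) * J s z) := by
    intro z
    rw [SD, hx]
    ring
  rw [LL_eq]
  simp only [hSD]
  rw [integral_neg]
  have hint' : Integrable (fun z => (w (x + z) + w (x - z)) * J s z) := by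
    refine hint.neg.congr (Eventually.of_forall fun z => ?_)
    show -(SD w x z * J s z) = _
    rw [hSD]
    ring
  have hnn : ∀ z, 0 ≤ (w (x + z) + w (x - z)) * J s z := fun z =>
    mul_nonneg (add_nonneg (hw0 _) (hw0 _)) (J_nonneg s z)
  have hpos : 0 < ∫ z, (w (x + z) + w (x - z)) * J s z := by
    rw [integral_pos_iff_support_of_nonneg hnn hint']
    have hc : Continuous w := hw.diff.continuous
    have hopen : IsOpen {z : ℂ | w (x + z) ≠ 0} :=
      isOpen_ne_fun (hc.comp (continuous_const.add continuous_id)) continuous_const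
    refine lt_of_lt_of_le (hopen.measure_pos _ ⟨x' - x, ?_⟩) (measure_mono fun z hz => ?_)
    · show w (x + (x' - x)) ≠ 0
      rwa [add_sub_cancel]
    · have hz0 : z ≠ 0 := by
        rintro rfl
        apply hz
        rw [add_zero, hx]
      have h1 : 0 < w (x + z) := lt_of_le_of_ne (hw0 _) (Ne.symm hz)
      have h2 := hw0 (x - z)
      have h3 : 0 < J s z := Real.rpow_pos_of_pos (norm_pos_iff.2 hz0) _
      rw [Function.mem_support]
      positivity
  linarith

end Pool.Agent.Q86.FD
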