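import Pool.Agent.Q86.FD.J

set_option autoImplicit false

open MeasureTheory Filter Topology Set

noncomputable section

namespace Pool.Agent.Q86.FD

open Q66.FD

/-- the second difference -/
def SD (w : ℂ → ℝ) (x z : ℂ) : ℝ := 2 * w x - w (x + z) - w (x - z)

theorem bdd_of_C2c (w : ℂ → ℝ) (hw : C2c w) : ∃ B : ℝ, 0 ≤ B ∧ ∀ x, |w x| ≤ B := by
  obtain ⟨B, hB⟩ := hw.diff.continuous.bounded_above_of_compact_support hw.supp
  exact ⟨B, (norm_nonneg _).trans (hB 0), hB⟩

theorem SD_bound (w : ℂ → ℝ) (hw : C2c w) :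
    ∃ C : ℝ, 0 ≤ C ∧ ∀ x z, |SD w x z| ≤ C * min 1 (‖z‖ ^ 2) := by
  obtain ⟨B, hB0, hB⟩ := bdd_of_C2c w hw
  have hd1 : ContDiff ℝ 1 (fderiv ℝ w) := hw.diff.fderiv_right (by norm_num)
  obtain ⟨K, hK⟩ := hd1.lipschitzWith_of_hasCompactSupport (hw.supp.fderiv ℝ) one_ne_zero
  have hwd : Differentiable ℝ w := hw.diff.differentiable (by norm_num)
  have hsq : ∀ x z, |SD w x z| ≤ K * ‖z‖ ^ 2 := by
    intro x z
    let ψ : ℂ → ℝ := fun y => w (y + z) - w y
    have hψd : ∀ y ∈ (univ : Set ℂ), HasFDerivWithinAt ψ (fderiv ℝ w (y + z) - fderiv ℝ w y) univ y := by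
      intro y _
      refine HasFDerivAt.hasFDerivWithinAt ?_
      refine HasFDerivAt.sub ?_ (hwd y).hasFDerivAt
      have h1 := (hwd (y + z)).hasFDerivAt.comp y ((hasFDerivAt_id y).add_const z)
      simpa [Function.comp_def] using h1
    have hb : ∀ y ∈ (univ : Set ℂ), ‖fderiv ℝ w (y + z) - fderiv ℝ w y‖ ≤ K * ‖z‖ := by
      intro y _
      have h1 := hK.dist_le_mul (y + z) y
      rw [dist_eq_norm, dist_eq_norm] at h1
      simpa using h1
    have h2 := Convex.norm_image_sub_le_of_norm_hasFDerivWithin_le hψd hb convex_univ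
      (mem_univ (x - z)) (mem_univ x)
    have h3 : ψ x - ψ (x - z) = - SD w x z := by
      simp only [ψ, SD, sub_add_cancel]
      ring
    rw [h3, norm_neg, sub_sub_cancel, Real.norm_eq_abs] at h2
    calc |SD w x z| ≤ K * ‖z‖ * ‖z‖ := h2
      _ = K * ‖z‖ ^ 2 := by ring
  have hb4 : ∀ x z, |SD w x z| ≤ 4 * B := by
    intro x z
    have h1 := abs_le.1 (hB x)
    have h2 := abs_le.1 (hB (x + z))
    have h3 := abs_le.1 (hB (x - z))
    rw [SD, abs_le]
    constructor <;> linarith [h1.1, h1.2, h2.1, h2.2, h3.1, h3.2]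
  refine ⟨max (4 * B) K, le_max_of_le_left (by positivity), fun x z => ?_⟩
  rcases le_total 1 (‖z‖ ^ 2) with h | h
  · rw [min_eq_left h, mul_one]
    exact (hb4 x z).trans (le_max_left _ _)
  · rw [min_eq_right h]
    exact (hsq x z).trans (mul_le_mul_of_nonneg_right (le_max_right _ _) (by positivity))

theorem w_int (w : ℂ → ℝ) (hw : C2c w) : Integrable w :=
  hw.diff.continuous.integrable_of_hasCompactSupport hw.supp

theorem continuous_SD (w : ℂ → ℝ) (hw : Continuous w) :
    Continuous (fun p : ℂ × ℂ => SD w p.1 p.2) := by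
  unfold SD
  fun_prop

theorem SD_int_x (w : ℂ → ℝ) (hw : C2c w) (z : ℂ) : Integrable (fun x => SD w x z) := by
  have h := w_int w hw
  unfold SD
  exact ((h.const_mul 2).sub (h.comp_add_right z)).sub (h.comp_sub_right z)

theorem SDJ_meas (s : ℝ) (w : ℂ → ℝ) (hw : C2c w) :
    Measurable (fun p : ℂ × ℂ => SD w p.1 p.2 * J s p.2) :=
  (continuous_SD w hw.diff.continuous).measurable.mul ((measurable_J s).comp measurable_snd)

theorem SDJ_int (s : ℝ) (hs : 0 < s) (hs1 : s < 1) (w : ℂ → ℝ) (hw : C2c w) :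
    Integrable (fun p : ℂ × ℂ => SD w p.1 p.2 * J s p.2) := by
  obtain ⟨C, hC0, hC⟩ := SD_bound w hw
  obtain ⟨R, hR⟩ : ∃ R : ℝ, ∀ x : ℂ, R < ‖x‖ → w x = 0 := by
    obtain ⟨R, hR⟩ := hw.supp.isCompact.isBounded.exists_norm_le
    refine ⟨R, fun x hx => ?_⟩
    by_contra h
    have := hR x (subset_tsupport _ h)
    linarith
  set V : ℝ := (volume : Measure ℂ).real (Metric.closedBall (0 : ℂ) (R + 1)) with hV
  have hwint := w_int w hw
  -- the bound for the inner integral
  have hin : ∀ z : ℂ, ∫ x : ℂ, |SD w x z| ≤ (4 * (∫ x, |w x|) + C * V) * min 1 (‖z‖ ^ 2) := by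
    intro z
    have hint1 : Integrable (fun x => |SD w x z|) := (SD_int_x w hw z).abs
    have hW0 : 0 ≤ ∫ x, |w x| := integral_nonneg fun x => abs_nonneg _
    have hV0 : 0 ≤ V := measureReal_nonneg
    rcases le_total 1 (‖z‖ ^ 2) with h | h
    · rw [min_eq_left h, mul_one]
      have h1 : ∫ x : ℂ, |SD w x z| ≤ ∫ x : ℂ, (2 * |w x| + |w (x + z)| + |w (x - z)|) := by
        refine integral_mono hint1 (((hwint.abs.const_mul 2).add (hwint.abs.comp_add_right z)).add
          (hwint.abs.comp_sub_right z)) fun x => ?_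
        show |2 * w x - w (x + z) - w (x - z)| ≤ _
        have e1 := abs_sub (2 * w x - w (x + z)) (w (x - z))
        have e2 := abs_sub (2 * w x) (w (x + z))
        rw [abs_mul, abs_two] at e2
        linarith
      have h2 : ∫ x : ℂ, (2 * |w x| + |w (x + z)| + |w (x - z)|) = 4 * ∫ x, |w x| := by
        have i1 : Integrable (fun x => 2 * |w x|) := hwint.abs.const_mul 2
        have i2 : Integrable (fun x => |w (x + z)|) := hwint.abs.comp_add_right z
        have i3 : Integrable (fun x => |w (x - z)|) := hwint.abs.comp_sub_right z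
        have i12 : Integrable (fun x => 2 * |w x| + |w (x + z)|) := i1.add i2
        rw [integral_add i12 i3, integral_add i1 i2, integral_const_mul,
          integral_add_right_eq_self (fun x => |w x|) z, integral_sub_right_eq_self (fun x => |w x|) z]
        ring
      have h3 : 0 ≤ C * V := mul_nonneg hC0 hV0
      linarith
    · rw [min_eq_right h]
      have hz1 : ‖z‖ ≤ 1 := by
        by_contra hcon
        push Not at hcon
        nlinarith
      have h1 : ∫ x : ℂ, |SD w x z| = ∫ x in Metric.closedBall (0 : ℂ) (R + 1), |SD w x z| := by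
        symm
        refine setIntegral_eq_integral_of_forall_compl_eq_zero fun x hx => ?_
        rw [mem_closedBall_zero_iff, not_le] at hx
        have e1 : w x = 0 := hR x (by linarith)
        have e2 : w (x + z) = 0 := hR _ (by
          have := norm_sub_norm_le x (-z)
          rw [norm_neg, sub_neg_eq_add] at this
          linarith)
        have e3 : w (x - z) = 0 := hR _ (by
          have := norm_sub_norm_le x z
          linarith)
        rw [SD, e1, e2, e3]
        simp
      rw [h1]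
      have h2 : ∫ x in Metric.closedBall (0 : ℂ) (R + 1), |SD w x z| ≤
          ∫ _x in Metric.closedBall (0 : ℂ) (R + 1), C * ‖z‖ ^ 2 := by
        refine integral_mono hint1.integrableOn ?_ fun x => ?_
        · exact integrableOn_const (by
            exact (isCompact_closedBall _ _).measure_lt_top.ne)
        · have := hC x z
          rw [min_eq_right h] at this
          exact this
      rw [setIntegral_const, smul_eq_mul, ← hV] at h2
      have h3 : 0 ≤ 4 * (∫ x, |w x|) * ‖z‖ ^ 2 := by positivity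
      nlinarith
  rw [Measure.volume_eq_prod, integrable_prod_iff' (SDJ_meas s w hw).aestronglyMeasurable]
  constructor
  · refine Eventually.of_forall fun z => ?_
    show Integrable (fun x => SD w x z * J s z)
    exact (SD_int_x w hw z).mul_const _
  · refine ((minJ_int s hs hs1).const_mul (4 * (∫ x, |w x|) + C * V)).mono' ?_
      (Eventually.of_forall fun z => ?_)
    · have h1 : StronglyMeasurable (fun p : ℂ × ℂ => ‖SD w p.1 p.2 * J s p.2‖) :=
        (SDJ_meas s w hw).norm.stronglyMeasurable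
      exact (h1.comp_measurable measurable_swap).integral_prod_right'.aestronglyMeasurable
    · rw [Real.norm_eq_abs, abs_of_nonneg (integral_nonneg fun x => norm_nonneg _)]
      have h1 : ∀ x, ‖SD w x z * J s z‖ = |SD w x z| * J s z := by
        intro x
        rw [norm_mul, Real.norm_eq_abs, Real.norm_eq_abs, abs_of_nonneg (J_nonneg s z)]
      show ∫ x, ‖SD w x z * J s z‖ ≤ _
      simp only [h1]
      rw [integral_mul_const, ← mul_assoc]
      exact mul_le_mul_of_nonneg_right (hin z) (J_nonneg s z)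

theorem LL_eq (s : ℝ) (w : ℂ → ℝ) (x : ℂ) : LL s w x = 1 / 2 * ∫ z : ℂ, SD w x z * J s z := rfl

theorem SDJ_int_z (s : ℝ) (hs : 0 < s) (hs1 : s < 1) (w : ℂ → ℝ) (hw : C2c w) (x : ℂ) :
    Integrable (fun z => SD w x z * J s z) := by
  obtain ⟨C, hC0, hC⟩ := SD_bound w hw
  refine ((minJ_int s hs hs1).const_mul C).mono' ?_ (Eventually.of_forall fun z => ?_)
  · exact ((SDJ_meas s w hw).comp (measurable_const.prodMk measurable_id)).aestronglyMeasurable
  · rw [norm_mul, Real.norm_eq_abs, Real.norm_eq_abs, abs_of_nonneg (J_nonneg s z), ← mul_assoc]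
    exact mul_le_mul_of_nonneg_right (hC x z) (J_nonneg s z)

/-- the regularised operator on bounded measurable functions, symmetrised -/
theorem Lt_symm (s : ℝ) (hs : 0 < s) (t : ℝ) (ht : 0 < t) (w : ℂ → ℝ) (B : ℝ) (hm : Measurable w)
    (hB : ∀ x, |w x| ≤ B) (x : ℂ) : Lt s t w x = 1 / 2 * ∫ z : ℂ, SD w x z * Jt s t z := by
  have hJ := Jt_int s hs t ht
  have hint1 : Integrable (fun z : ℂ => (w x - w (x + z)) * Jt s t z) := by
    refine hJ.bdd_mul (c := 2 * B) ?_ (Eventually.of_forall fun z => ?_)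
    · exact (measurable_const.sub (hm.comp (measurable_const.add measurable_id))).aestronglyMeasurable
    · rw [Real.norm_eq_abs]
      have e1 := abs_sub (w x) (w (x + z))
      linarith [hB x, hB (x + z)]
  have hJe : ∀ z : ℂ, Jt s t (-z) = Jt s t z := by
    intro z
    rw [Jt, Jt, norm_neg]
  have h2 : Lt s t w x = ∫ z : ℂ, (w x - w (x - z)) * Jt s t z := by
    rw [Lt, ← integral_neg_eq_self]
    refine integral_congr_ae (Eventually.of_forall fun z => ?_)
    show (w x - w (x + -z)) * Jt s t (-z) = _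
    rw [hJe, ← sub_eq_add_neg]
  have hint2 : Integrable (fun z : ℂ => (w x - w (x - z)) * Jt s t z) := by
    refine (hint1.comp_neg).congr (Eventually.of_forall fun z => ?_)
    show (w x - w (x + -z)) * Jt s t (-z) = _
    rw [hJe, ← sub_eq_add_neg]
  have h3 : ∫ z : ℂ, SD w x z * Jt s t z =
      (∫ z : ℂ, (w x - w (x + z)) * Jt s t z) + ∫ z : ℂ, (w x - w (x - z)) * Jt s t z := by
    rw [← integral_add hint1 hint2]
    refine integral_congr_ae (Eventually.of_forall fun z => ?_)
    simp only [SD]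
    ring
  rw [h3, ← h2]
  have h4 : ∫ z : ℂ, (w x - w (x + z)) * Jt s t z = Lt s t w x := rfl
  rw [h4]
  ring

theorem t_PROD : S_J → S_PROD := by
  intro _ s hs hs1 w hw
  obtain ⟨C, hC0, hC⟩ := SD_bound w hw
  have hint := SDJ_int s hs hs1 w hw
  refine ⟨⟨C, hC⟩, hint, ?_, ?_, ?_, ?_⟩
  · rw [Measure.volume_eq_prod] at hint
    exact hint.integral_prod_left.const_mul (1 / 2)
  · have h1 : StronglyMeasurable (fun p : ℂ × ℂ => SD w p.1 p.2 * J s p.2) :=
      (SDJ_meas s w hw).stronglyMeasurable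
    exact (h1.integral_prod_right'.measurable).const_mul (1 / 2)
  · refine ⟨1 / 2 * ∫ z : ℂ, C * (min 1 (‖z‖ ^ 2) * J s z), fun x => ?_⟩
    rw [LL_eq, abs_mul, abs_of_pos (by norm_num : (0 : ℝ) < 1 / 2)]
    refine mul_le_mul_of_nonneg_left ?_ (by norm_num)
    rw [← Real.norm_eq_abs]
    refine (norm_integral_le_integral_norm _).trans ?_
    refine integral_mono (SDJ_int_z s hs hs1 w hw x).norm ((minJ_int s hs hs1).const_mul C) fun z => ?_
    show ‖SD w x z * J s z‖ ≤ C * (min 1 (‖z‖ ^ 2) * J s z)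
    rw [norm_mul, Real.norm_eq_abs, Real.norm_eq_abs, abs_of_nonneg (J_nonneg s z), ← mul_assoc]
    exact mul_le_mul_of_nonneg_right (hC x z) (J_nonneg s z)
  · intro t ht x
    obtain ⟨B, -, hB⟩ := bdd_of_C2c w hw
    exact Lt_symm s hs t ht w B hw.diff.continuous.measurable hB x

end Pool.Agent.Q86.FD
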