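import Pool.Agent.Q86.FD.PROD

set_option autoImplicit false

open MeasureTheory Filter Topology Set

noncomputable section

namespace Pool.Agent.Q86.FD

open Q66.FD

theorem t_SYM : S_J → S_PROD → S_SYM := by
  intro _ _ s hs hs1 w hw f M hf hM
  have hwint := w_int w hw
  have hwm : Measurable w := hw.diff.continuous.measurable
  obtain ⟨B, hB0, hB⟩ := bdd_of_C2c w hw
  have hM0 : 0 ≤ M := (abs_nonneg _).trans (hM 0)
  constructor
  · intro t ht
    have hJ := Jt_int s hs t ht
    have hJm : Measurable (Jt s t) := (continuous_Jt s t ht).measurable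
    have hJe : ∀ z : ℂ, Jt s t (-z) = Jt s t z := by
      intro z
      rw [Jt, Jt, norm_neg]
    -- splitting
    have hsplit : ∀ (g : ℂ → ℝ) (D : ℝ), Measurable g → (∀ x, |g x| ≤ D) → ∀ x,
        Lt s t g x = g x * (∫ z, Jt s t z) - ∫ z, g (x + z) * Jt s t z := by
      intro g D hg hD x
      have h1 : Integrable (fun z : ℂ => g (x + z) * Jt s t z) :=
        hJ.bdd_mul (c := D) (hg.comp (measurable_const.add measurable_id)).aestronglyMeasurable
          (Eventually.of_forall fun z => hD _)
      rw [Lt, ← integral_const_mul, ← integral_sub (hJ.const_mul _) h1]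
      refine integral_congr_ae (Eventually.of_forall fun z => ?_)
      show (g x - g (x + z)) * Jt s t z = g x * Jt s t z - g (x + z) * Jt s t z
      ring
    have hprod : Integrable (fun p : ℂ × ℂ => w p.1 * (f (p.1 + p.2) * Jt s t p.2))
        ((volume : Measure ℂ).prod volume) := by
      have h1 : Integrable (fun p : ℂ × ℂ => w p.1 * Jt s t p.2) ((volume : Measure ℂ).prod volume) :=
        hwint.mul_prod hJ
      have h2 : Integrable (fun p : ℂ × ℂ => f (p.1 + p.2) * (w p.1 * Jt s t p.2))
          ((volume : Measure ℂ).prod volume) :=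
        h1.bdd_mul (c := M) (hf.comp (measurable_fst.add measurable_snd)).aestronglyMeasurable
          (Eventually.of_forall fun p => hM _)
      refine h2.congr (Eventually.of_forall fun p => ?_)
      show f (p.1 + p.2) * (w p.1 * Jt s t p.2) = w p.1 * (f (p.1 + p.2) * Jt s t p.2)
      ring
    have hprod2 : Integrable (fun p : ℂ × ℂ => w (p.1 - p.2) * (f p.1 * Jt s t p.2))
        ((volume : Measure ℂ).prod volume) := by
      have h0 : Integrable (fun p : ℂ × ℂ => w (p.1 - p.2) * Jt s t p.2)
          ((volume : Measure ℂ).prod volume) := by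
        have h1 : Integrable (fun p : ℂ × ℂ => w p.1 * Jt s t p.2) ((volume : Measure ℂ).prod volume) :=
          hwint.mul_prod hJ
        exact ((measurePreserving_sub_prod (volume : Measure ℂ) volume).integrable_comp
          h1.aestronglyMeasurable).2 h1
      have h2 : Integrable (fun p : ℂ × ℂ => f p.1 * (w (p.1 - p.2) * Jt s t p.2))
          ((volume : Measure ℂ).prod volume) :=
        h0.bdd_mul (c := M) (hf.comp measurable_fst).aestronglyMeasurable
          (Eventually.of_forall fun p => hM _)
      refine h2.congr (Eventually.of_forall fun p => ?_)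
      show f p.1 * (w (p.1 - p.2) * Jt s t p.2) = w (p.1 - p.2) * (f p.1 * Jt s t p.2)
      ring
    have e1 : ∫ x, w x * Lt s t f x = (∫ z, Jt s t z) * (∫ x, w x * f x) -
        ∫ x, ∫ z, w x * (f (x + z) * Jt s t z) := by
      have h1 : ∀ x, w x * Lt s t f x = (∫ z, Jt s t z) * (w x * f x) -
          ∫ z, w x * (f (x + z) * Jt s t z) := by
        intro x
        rw [hsplit f M hf hM x, integral_const_mul]
        ring
      simp only [h1]
      have hwf : Integrable (fun x => w x * f x) := by
        refine (hwint.bdd_mul (c := M) hf.aestronglyMeasurable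
          (Eventually.of_forall fun p => hM _)).congr (Eventually.of_forall fun x => ?_)
        exact mul_comm _ _
      rw [integral_sub (hwf.const_mul _) hprod.integral_prod_left, integral_const_mul]
    have e2 : ∫ x, f x * Lt s t w x = (∫ z, Jt s t z) * (∫ x, w x * f x) -
        ∫ x, ∫ z, w (x - z) * (f x * Jt s t z) := by
      have h1 : ∀ x, f x * Lt s t w x = (∫ z, Jt s t z) * (w x * f x) -
          ∫ z, w (x - z) * (f x * Jt s t z) := by
        intro x
        rw [hsplit w B hwm hB x, mul_sub]
        have h2 : ∫ z, w (x + z) * Jt s t z = ∫ z, w (x - z) * Jt s t z := by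
          rw [← integral_neg_eq_self]
          refine integral_congr_ae (Eventually.of_forall fun z => ?_)
          show w (x + -z) * Jt s t (-z) = _
          rw [hJe, ← sub_eq_add_neg]
        have h3 : f x * ∫ z, w (x - z) * Jt s t z = ∫ z, w (x - z) * (f x * Jt s t z) := by
          rw [← integral_const_mul (f x)]
          exact integral_congr_ae (Eventually.of_forall fun z => by
            show f x * (w (x - z) * Jt s t z) = w (x - z) * (f x * Jt s t z)
            ring)
        rw [h2, h3]
        ring
      simp only [h1]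
      have hwf : Integrable (fun x => w x * f x) := by
        refine (hwint.bdd_mul (c := M) hf.aestronglyMeasurable
          (Eventually.of_forall fun p => hM _)).congr (Eventually.of_forall fun x => ?_)
        exact mul_comm _ _
      rw [integral_sub (hwf.const_mul _) hprod2.integral_prod_left, integral_const_mul]
    have e3 := integral_integral_swap (f := fun x z => w x * (f (x + z) * Jt s t z)) hprod
    have e4 := integral_integral_swap (f := fun x z => w (x - z) * (f x * Jt s t z)) hprod2
    rw [e1, e2, e3, e4]
    congr 1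
    refine integral_congr_ae (Eventually.of_forall fun z => ?_)
    show ∫ x, w x * (f (x + z) * Jt s t z) = ∫ x, w (x - z) * (f x * Jt s t z)
    rw [← integral_add_right_eq_self (fun x => w (x - z) * (f x * Jt s t z)) z]
    simp only [add_sub_cancel_right]
  · have hSDm : Measurable (fun p : ℂ × ℂ => SD w p.1 p.2) :=
      (continuous_SD w hw.diff.continuous).measurable
    have hint := SDJ_int s hs hs1 w hw
    have hlim : Tendsto (fun t => ∫ p : ℂ × ℂ, f p.1 * (SD w p.1 p.2 * Jt s t p.2)) (𝓝[>] 0)
        (𝓝 (∫ p : ℂ × ℂ, f p.1 * (SD w p.1 p.2 * J s p.2))) := by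
      refine tendsto_integral_filter_of_dominated_convergence
        (fun p => M * |SD w p.1 p.2 * J s p.2|) ?_ ?_ (hint.abs.const_mul M) ?_
      · filter_upwards [self_mem_nhdsWithin] with t ht
        exact ((hf.comp measurable_fst).mul (hSDm.mul
          ((continuous_Jt s t ht).measurable.comp measurable_snd))).aestronglyMeasurable
      · filter_upwards [self_mem_nhdsWithin] with t ht
        refine Eventually.of_forall fun p => ?_
        rw [norm_mul, norm_mul, Real.norm_eq_abs, Real.norm_eq_abs, Real.norm_eq_abs, abs_mul,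
          abs_of_pos (Jt_pos s t ht p.2), abs_of_nonneg (J_nonneg s p.2)]
        refine mul_le_mul (hM _) ?_ (mul_nonneg (abs_nonneg _) (Jt_pos s t ht p.2).le) hM0
        by_cases hz : p.2 = 0
        · have h0 : SD w p.1 p.2 = 0 := by rw [SD, hz]; simp; ring
          rw [h0]; simp
        · exact mul_le_mul_of_nonneg_left (Jt_le s hs t p.2 hz) (abs_nonneg _)
      · refine Eventually.of_forall fun p => ?_
        by_cases hz : p.2 = 0
        · have h0 : SD w p.1 p.2 = 0 := by rw [SD, hz]; simp; ring
          rw [h0]; simp
        · exact ((Jt_tendsto s p.2 hz).const_mul _).const_mul _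
    have hfub : ∀ k : ℂ → ℝ, Integrable (fun p : ℂ × ℂ => f p.1 * (SD w p.1 p.2 * k p.2)) →
        ∫ p : ℂ × ℂ, f p.1 * (SD w p.1 p.2 * k p.2) = ∫ x, f x * ∫ z, SD w x z * k z := by
      intro k hk
      rw [Measure.volume_eq_prod] at hk ⊢
      rw [integral_prod _ hk]
      refine integral_congr_ae (Eventually.of_forall fun x => ?_)
      show ∫ y, f x * (SD w x y * k y) = f x * ∫ z, SD w x z * k z
      exact integral_const_mul _ _
    have hI0 : Integrable (fun p : ℂ × ℂ => f p.1 * (SD w p.1 p.2 * J s p.2)) :=
      hint.bdd_mul (c := M) (hf.comp measurable_fst).aestronglyMeasurable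
        (Eventually.of_forall fun p => hM _)
    have hIt : ∀ t : ℝ, 0 < t → Integrable (fun p : ℂ × ℂ => f p.1 * (SD w p.1 p.2 * Jt s t p.2)) := by
      intro t ht
      refine hI0.mono ((hf.comp measurable_fst).mul (hSDm.mul
          ((continuous_Jt s t ht).measurable.comp measurable_snd))).aestronglyMeasurable
        (Eventually.of_forall fun p => ?_)
      rw [norm_mul, norm_mul, norm_mul, norm_mul, Real.norm_eq_abs, Real.norm_eq_abs, Real.norm_eq_abs,
        Real.norm_eq_abs, abs_of_pos (Jt_pos s t ht p.2), abs_of_nonneg (J_nonneg s p.2)]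
      refine mul_le_mul_of_nonneg_left ?_ (abs_nonneg _)
      by_cases hz : p.2 = 0
      · have h0 : SD w p.1 p.2 = 0 := by rw [SD, hz]; simp; ring
        rw [h0]; simp
      · exact mul_le_mul_of_nonneg_left (Jt_le s hs t p.2 hz) (abs_nonneg _)
    have hL : ∫ x, f x * LL s w x = 1 / 2 * ∫ p : ℂ × ℂ, f p.1 * (SD w p.1 p.2 * J s p.2) := by
      rw [hfub (J s) hI0, ← integral_const_mul]
      refine integral_congr_ae (Eventually.of_forall fun x => ?_)
      show f x * LL s w x = 1 / 2 * (f x * ∫ z, SD w x z * J s z)
      rw [LL_eq]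
      ring
    rw [hL]
    refine (hlim.const_mul (1 / 2)).congr' ?_
    filter_upwards [self_mem_nhdsWithin] with t ht
    rw [hfub (Jt s t) (hIt t ht), ← integral_const_mul]
    refine integral_congr_ae (Eventually.of_forall fun x => ?_)
    show 1 / 2 * (f x * ∫ z, SD w x z * Jt s t z) = f x * Lt s t w x
    rw [Lt_symm s hs t ht w B hwm hB x]
    ring

end Pool.Agent.Q86.FD
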